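import Pool.Agent.helper24.TG.S3

set_option linter.all false
set_option autoImplicit false

/-!
# Module RG1a (MP_ce98d8_co)
-/

namespace Pool.Agent.helper24.TG

open Finset Classical
open Pool.Agent.helper11.Tight (nb eo mem_nb)

theorem RG1a_c (p : Par) : 10 ^ 6 ≤ p.c := by
  have h1 := p.hLog
  have h2 := p.hLam
  calc 10 ^ 6 = 10 ^ 6 * 1 := by ring
    _ ≤ 10 ^ 6 * p.Lam := Nat.mul_le_mul_left _ h2
    _ ≤ p.c := h1

theorem RG1a_pos (p : Par) : 1 ≤ p.B ∧ 1 ≤ p.q ∧ 1 ≤ p.sq := by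
  obtain ⟨b, hb⟩ := p.hBp
  obtain ⟨h, hh⟩ := p.hsq
  have h1 : 1 ≤ p.sq := by rw [hh]; exact Nat.one_le_two_pow
  refine ⟨?_, ?_, h1⟩
  · rw [hb]; exact Nat.one_le_two_pow
  · rw [p.hq]; exact Nat.one_le_pow _ _ h1

/-- the size of the allowed sets -/
theorem RG1a_size (p : Par) (w g k : ℕ) (hw : w ≤ 10 * p.W0)
    (hg : g ≤ p.tau * p.d * w + 2 * p.c ^ 2 * p.q * p.N)
    (hk : p.B * p.q ≤ 4 * p.c ^ p.x1 * k) : 3 * g * p.c ^ 5 ≤ 144 * (k * p.N) := by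
  have hc := RG1a_c p
  obtain ⟨hB, hq, hs⟩ := RG1a_pos p
  -- g ≤ 10 tau d c^2 B q sq + 2 c^2 q N
  have h1 : g ≤ p.tau * p.d * (10 * (p.c ^ 2 * p.B * p.q * p.sq)) +
      2 * p.c ^ 2 * p.q * p.N := by
    refine hg.trans ?_
    have : p.tau * p.d * w ≤ p.tau * p.d * (10 * (p.c ^ 2 * p.B * p.q * p.sq)) :=
      Nat.mul_le_mul_left _ hw
    omega
  have hN3 := p.N3
  have hN7 := p.N7'
  have hx1 : p.x1 = p.kT + 5 := rfl
  rw [hx1] at hk
  -- first term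
  have h2 : 3 * (p.tau * p.d * (10 * (p.c ^ 2 * p.B * p.q * p.sq))) * p.c ^ 5 ≤
      120 * (k * p.N) := by
    calc 3 * (p.tau * p.d * (10 * (p.c ^ 2 * p.B * p.q * p.sq))) * p.c ^ 5
        = 30 * (p.c ^ 7 * p.tau * p.sq * p.d) * (p.B * p.q) := by ring
      _ ≤ 30 * (p.c ^ 7 * p.tau * p.sq * p.d) * (4 * p.c ^ (p.kT + 5) * k) :=
          Nat.mul_le_mul_left _ hk
      _ = 120 * (k * (p.c ^ (p.kT + 12) * p.tau * p.sq * p.d)) := by
          rw [pow_add p.c p.kT 12, pow_add p.c p.kT 5]; ring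
      _ ≤ 120 * (k * p.N) := Nat.mul_le_mul_left _ (Nat.mul_le_mul_left _ hN3)
  -- second term
  have h3 : 3 * (2 * p.c ^ 2 * p.q * p.N) * p.c ^ 5 ≤ 24 * (k * p.N) := by
    have h4 : p.B * (3 * (2 * p.c ^ 2 * p.q * p.N) * p.c ^ 5) ≤ p.B * (24 * (k * p.N)) := by
      calc p.B * (3 * (2 * p.c ^ 2 * p.q * p.N) * p.c ^ 5)
          = 6 * p.c ^ 7 * p.N * (p.B * p.q) := by ring
        _ ≤ 6 * p.c ^ 7 * p.N * (4 * p.c ^ (p.kT + 5) * k) := Nat.mul_le_mul_left _ hk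
        _ = 24 * (k * p.N) * p.c ^ (p.kT + 12) := by
            rw [pow_add p.c p.kT 12, pow_add p.c p.kT 5]; ring
        _ ≤ 24 * (k * p.N) * p.c ^ (p.kT + 15) :=
            Nat.mul_le_mul_left _ (Nat.pow_le_pow_right (by omega) (by omega))
        _ ≤ 24 * (k * p.N) * p.B := Nat.mul_le_mul_left _ hN7
        _ = p.B * (24 * (k * p.N)) := by ring
    exact Nat.le_of_mul_le_mul_left h4 (by omega)
  calc 3 * g * p.c ^ 5 ≤ 3 * (p.tau * p.d * (10 * (p.c ^ 2 * p.B * p.q * p.sq)) +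
      2 * p.c ^ 2 * p.q * p.N) * p.c ^ 5 := by
        exact Nat.mul_le_mul_right _ (Nat.mul_le_mul_left _ h1)
    _ = 3 * (p.tau * p.d * (10 * (p.c ^ 2 * p.B * p.q * p.sq))) * p.c ^ 5 +
        3 * (2 * p.c ^ 2 * p.q * p.N) * p.c ^ 5 := by ring
    _ ≤ 144 * (k * p.N) := by omega

/-- the number of allowed sets -/
theorem RG1a_fam (p : Par) (k : ℕ) (hk : p.B * p.q ≤ 4 * p.c ^ p.x1 * k) :
    3 * p.Lam * p.fb ≤ k := by
  have hc := RG1a_c p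
  have hLog := p.hLog
  obtain ⟨hB, hq, hs⟩ := RG1a_pos p
  have hN4 := p.N4
  have hN7 := p.N7'
  have hx1 : p.x1 = p.kT + 5 := rfl
  have hfb : p.fb = 2 * p.c * p.La * p.Lam := rfl
  rw [hx1] at hk
  rw [hfb]
  have hLam : p.Lam ≤ p.c := by omega
  have hc0 : 0 < p.c ^ (p.kT + 5) := Nat.pow_pos (by omega)
  have h1 : 4 * p.c ^ (p.kT + 5) * (3 * p.Lam * (2 * p.c * p.La * p.Lam)) ≤
      4 * p.c ^ (p.kT + 5) * k := by
    calc 4 * p.c ^ (p.kT + 5) * (3 * p.Lam * (2 * p.c * p.La * p.Lam))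
        = 24 * p.c ^ (p.kT + 5) * p.La * p.c * (p.Lam * p.Lam) := by ring
      _ ≤ 24 * p.c ^ (p.kT + 5) * p.La * p.c * (p.c * p.c) :=
          Nat.mul_le_mul_left _ (Nat.mul_le_mul hLam hLam)
      _ = p.c ^ 3 * 24 * (p.La * p.c ^ (p.kT + 5)) := by ring
      _ ≤ p.c ^ (p.kT + 15) * (p.La * p.c ^ (p.kT + 12)) := by
          refine Nat.mul_le_mul ?_ (Nat.mul_le_mul_left _
            (Nat.pow_le_pow_right (by omega) (by omega)))
          calc p.c ^ 3 * 24 ≤ p.c ^ 3 * p.c := Nat.mul_le_mul_left _ (by omega)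
            _ = p.c ^ 4 := by ring
            _ ≤ _ := Nat.pow_le_pow_right (by omega) (by omega)
      _ ≤ p.B * p.q := Nat.mul_le_mul hN7 hN4
      _ ≤ _ := hk
  exact Nat.le_of_mul_le_mul_left h1 (by positivity)

theorem RG1a (hx : RG1x_stmt) (hy : RG1y_stmt) : RG1a_stmt := by
  intro p P O A V _ _ _ _ _ _ _ _ _ H v T MM v0 hA hT h1 W hW hWc k hk hkq
  obtain ⟨GG, hGG, hGc, hGs⟩ := hx p P O A V H v T MM hA hT h1 W hW
  have hc := RG1a_c p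
  obtain ⟨hB, hq, hs⟩ := RG1a_pos p
  have hk0 : 1 ≤ k := by
    by_contra hcon
    have : k = 0 := by omega
    subst this
    have : 1 ≤ p.B * p.q := Nat.mul_pos hB hq
    omega
  have hN : 1 ≤ p.N := p.hN
  set r : ℝ := ((Psi p H v0).card : ℝ) with hr
  have hr0 : 0 ≤ r := by positivity
  set bad : Finset ((P × A) × V) → Finset (P → V) := fun G =>
    (Psi p H v0).filter (fun φ => ∃ Y : Finset (P × A),
      (∀ x ∈ Y, ∀ y ∈ Y, x.1 = y.1 → x = y) ∧ Y.card = k ∧ ∀ x ∈ Y, (x, φ x.1) ∈ G) with hbad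
  -- bound for one allowed set
  have hone : ∀ G ∈ GG, ((bad G).card : ℝ) * ((p.c : ℝ) ^ 5) ^ k ≤ 432 ^ k * r := by
    intro G hG
    have e1 := hy p P O A V H v0 hT.card_V G k (fun e he => hW ((hGc G hG).2 e he)) hkq
    have e2 : ((G.card.choose k : ℕ) : ℝ) * (k : ℝ) ^ k ≤ (3 * (G.card : ℝ)) ^ k := by
      exact_mod_cast choose_mul_pow_le G.card k
    have e3 : 3 * (G.card : ℝ) * (p.c : ℝ) ^ 5 ≤ 144 * ((k : ℝ) * p.N) := by
      exact_mod_cast RG1a_size p W.card G.card k hWc (hGc G hG).1 hk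
    have e4 : Real.exp (2 * (k : ℝ) ^ 2 / (p.q : ℝ) ^ 2) ≤ 3 ^ k := by
      have hq2 : (0 : ℝ) < (p.q : ℝ) ^ 2 := by positivity
      have h5 : 2 * (k : ℝ) ^ 2 / (p.q : ℝ) ^ 2 ≤ k := by
        rw [div_le_iff₀ hq2]
        have : (2 : ℝ) * k ≤ (p.q : ℝ) ^ 2 := by exact_mod_cast hkq
        nlinarith [(Nat.cast_nonneg k : (0 : ℝ) ≤ k)]
      have h6 : Real.exp 1 ≤ 3 := by
        have h4 : Real.exp 1 < 2.7182818286 := Real.exp_one_lt_d9
        linarith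
      calc Real.exp (2 * (k : ℝ) ^ 2 / (p.q : ℝ) ^ 2) ≤ Real.exp k := Real.exp_le_exp.2 h5
        _ = (Real.exp 1) ^ k := by rw [← Real.exp_nat_mul]; simp
        _ ≤ 3 ^ k := pow_le_pow_left₀ (Real.exp_pos _).le h6 _
    have hkN : (0 : ℝ) < ((k : ℝ) * p.N) ^ k := by
      have : (0 : ℝ) < (k : ℝ) * p.N := by
        have h7 : (0 : ℝ) < k := by exact_mod_cast hk0
        have h8 : (0 : ℝ) < p.N := by exact_mod_cast hN
        positivity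
      positivity
    have e5 : ((k : ℝ) * p.N) ^ k * (((bad G).card : ℝ) * ((p.c : ℝ) ^ 5) ^ k) ≤
        ((k : ℝ) * p.N) ^ k * (432 ^ k * r) := by
      calc ((k : ℝ) * p.N) ^ k * (((bad G).card : ℝ) * ((p.c : ℝ) ^ 5) ^ k)
          = (((bad G).card : ℝ) * (p.N : ℝ) ^ k) * ((k : ℝ) ^ k * ((p.c : ℝ) ^ 5) ^ k) := by
            rw [mul_pow]; ring
        _ ≤ ((G.card.choose k : ℕ) * r * Real.exp (2 * (k : ℝ) ^ 2 / (p.q : ℝ) ^ 2)) *
            ((k : ℝ) ^ k * ((p.c : ℝ) ^ 5) ^ k) := by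
            refine mul_le_mul_of_nonneg_right ?_ (by positivity)
            exact e1
        _ = (((G.card.choose k : ℕ) : ℝ) * (k : ℝ) ^ k) * ((p.c : ℝ) ^ 5) ^ k * r *
            Real.exp (2 * (k : ℝ) ^ 2 / (p.q : ℝ) ^ 2) := by ring
        _ ≤ (3 * (G.card : ℝ)) ^ k * ((p.c : ℝ) ^ 5) ^ k * r * 3 ^ k := by
            gcongr
        _ = (3 * (G.card : ℝ) * (p.c : ℝ) ^ 5) ^ k * r * 3 ^ k := by rw [mul_pow (3 * (G.card : ℝ))]
        _ ≤ (144 * ((k : ℝ) * p.N)) ^ k * r * 3 ^ k := by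
            gcongr
        _ = ((k : ℝ) * p.N) ^ k * (432 ^ k * r) := by
            rw [mul_pow, show (432 : ℝ) = 144 * 3 by norm_num, mul_pow (144 : ℝ) 3]; ring
    exact le_of_mul_le_mul_left e5 hkN
  -- union
  set X := (Psi p H v0).filter (fun φ => ∃ S ⊆ W, (∀ x ∈ S, ∀ y ∈ S, x.1 = y.1 → x = y) ∧
    FInd H v T φ S ∧ k + p.fb ≤ S.card) with hX
  have hsub : X ⊆ GG.biUnion bad := by
    intro φ hφ
    obtain ⟨hφ1, S, hSW, hSt, hSi, hSc⟩ := Finset.mem_filter.1 hφ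
    obtain ⟨G, hG, hSG⟩ := hGs φ S hSW hSt hSi
    have h2 : k ≤ (S.filter (fun x => (x, φ x.1) ∈ G)).card := by omega
    obtain ⟨Y, hY, hYc⟩ := Finset.exists_subset_card_eq h2
    refine Finset.mem_biUnion.2 ⟨G, hG, Finset.mem_filter.2 ⟨hφ1, Y, ?_, hYc, ?_⟩⟩
    · intro x hx' y hy' hxy
      exact hSt x (Finset.mem_filter.1 (hY hx')).1 y (Finset.mem_filter.1 (hY hy')).1 hxy
    · intro x hx'
      exact (Finset.mem_filter.1 (hY hx')).2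
  have hXc : (X.card : ℝ) ≤ ∑ G ∈ GG, ((bad G).card : ℝ) := by
    exact_mod_cast (Finset.card_le_card hsub).trans Finset.card_biUnion_le
  have hGGc : (GG.card : ℝ) ≤ 2 ^ k := by
    have h3 : GG.card ≤ 2 ^ k := hGG.trans
      (Nat.pow_le_pow_right (by norm_num) (RG1a_fam p k hk))
    exact_mod_cast h3
  have hc6 : (3456 : ℝ) ≤ (p.c : ℝ) ^ 5 := by
    have h4 : 3456 ≤ p.c ^ 5 := by
      calc 3456 ≤ 10 ^ 6 := by norm_num
        _ ≤ p.c := hc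
        _ ≤ p.c ^ 5 := Nat.le_self_pow (by norm_num) _
    exact_mod_cast h4
  have hc50 : (0 : ℝ) < ((p.c : ℝ) ^ 5) ^ k := by
    have : (0 : ℝ) < (p.c : ℝ) ^ 5 := by linarith
    positivity
  have hfin : ((p.c : ℝ) ^ 5) ^ k * ((X.card : ℝ) * 2 ^ (2 * k)) ≤ ((p.c : ℝ) ^ 5) ^ k * r := by
    calc ((p.c : ℝ) ^ 5) ^ k * ((X.card : ℝ) * 2 ^ (2 * k))
        ≤ ((p.c : ℝ) ^ 5) ^ k * ((∑ G ∈ GG, ((bad G).card : ℝ)) * 2 ^ (2 * k)) := by
          gcongr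
      _ = (∑ G ∈ GG, ((bad G).card : ℝ) * ((p.c : ℝ) ^ 5) ^ k) * 2 ^ (2 * k) := by
          rw [← Finset.sum_mul]; ring
      _ ≤ (∑ G ∈ GG, 432 ^ k * r) * 2 ^ (2 * k) := by
          refine mul_le_mul_of_nonneg_right (Finset.sum_le_sum hone) (by positivity)
      _ = GG.card * (432 ^ k * r) * 2 ^ (2 * k) := by
          rw [Finset.sum_const, nsmul_eq_mul]
      _ ≤ 2 ^ k * (432 ^ k * r) * 2 ^ (2 * k) := by
          gcongr
      _ = 3456 ^ k * r := by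
          rw [pow_mul, show (3456 : ℝ) = 2 * 432 * 2 ^ 2 by norm_num, mul_pow, mul_pow]; ring
      _ ≤ ((p.c : ℝ) ^ 5) ^ k * r := by
          gcongr
  have hfin2 := le_of_mul_le_mul_left hfin hc50
  rw [hr] at hfin2
  exact_mod_cast hfin2

end Pool.Agent.helper24.TG
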